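import Pool.Agent.AGU.Defs
import Pool.Agent.Helper69_ABY.VTH

/-!
# AND2B: the form bound of `AGU.Run` from block Y (helper49)

`∑ conj(u a) s G_ab² u b` has the real part `s ∑ Re (conj(u a) u b) ((Re G_ab)² - (Im G_ab)²)`. The first
part is at most `(1 + θ) / 2 * |u|²` (VTH and the Schur test with the weights `g`), the second part is
`s ∑_(c, c') k_c k_c' |∑_b u_b G_cb G_c'b|² ≥ 0` by the Ward identity.
-/

set_option autoImplicit false
set_option linter.unusedSectionVars false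

open scoped BigOperators Matrix

noncomputable section

namespace Pool.Agent.AGU.H49

open Pool.Agent.AFJ (ind)

variable {X : Type} [Fintype X] [DecidableEq X]

/-- `Im G ∘ Im G` is positive semidefinite -/
theorem im_form {G : Matrix X X ℂ} {k : X → ℝ} (hWK : WK G k) (v : X → ℂ) :
    0 ≤ (∑ a, (starRingEnd ℂ) (v a) * ∑ b, (((G a b).im ^ 2 : ℝ) : ℂ) * v b).re := by
  have h1 : ∀ a b, (((G a b).im ^ 2 : ℝ) : ℂ) = ∑ c, ∑ c', (k c : ℂ) * (k c' : ℂ) *
      ((starRingEnd ℂ) (G c a) * (starRingEnd ℂ) (G c' a) * (G c b * G c' b)) := by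
    intro a b
    have h2 : (((G a b).im ^ 2 : ℝ) : ℂ) = (((G a b).im : ℝ) : ℂ) * (((G a b).im : ℝ) : ℂ) := by
      push_cast
      ring
    rw [h2, ← hWK.hw a b, Finset.sum_mul_sum]
    refine Finset.sum_congr rfl fun c _ => Finset.sum_congr rfl fun c' _ => ?_
    rw [hWK.hs a c, hWK.hs a c']
    ring
  have h3 : ∑ a, (starRingEnd ℂ) (v a) * ∑ b, (((G a b).im ^ 2 : ℝ) : ℂ) * v b =
      ∑ c, ∑ c', ((k c * k c' * ‖∑ b, G c b * G c' b * v b‖ ^ 2 : ℝ) : ℂ) := by
    have h4 : ∀ c c', ((k c * k c' * ‖∑ b, G c b * G c' b * v b‖ ^ 2 : ℝ) : ℂ) =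
        ∑ a, ∑ b, (starRingEnd ℂ) (v a) * ((k c : ℂ) * (k c' : ℂ) *
          ((starRingEnd ℂ) (G c a) * (starRingEnd ℂ) (G c' a) * (G c b * G c' b))) * v b := by
      intro c c'
      have h5 : ((‖∑ b, G c b * G c' b * v b‖ ^ 2 : ℝ) : ℂ) =
          (starRingEnd ℂ) (∑ b, G c b * G c' b * v b) * ∑ b, G c b * G c' b * v b := by
        rw [← Complex.normSq_eq_conj_mul_self, Complex.normSq_eq_norm_sq]
      rw [Complex.ofReal_mul, h5, Complex.ofReal_mul, map_sum, Finset.sum_mul_sum,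
        Finset.mul_sum]
      refine Finset.sum_congr rfl fun a _ => ?_
      rw [Finset.mul_sum]
      refine Finset.sum_congr rfl fun b _ => ?_
      rw [map_mul, map_mul]
      ring
    rw [Finset.sum_congr rfl fun c _ => Finset.sum_congr rfl fun c' _ => h4 c c']
    rw [Finset.sum_congr rfl fun c _ => Finset.sum_comm, Finset.sum_comm]
    refine Finset.sum_congr rfl fun a _ => ?_
    rw [Finset.mul_sum]
    rw [Finset.sum_congr rfl fun c _ => Finset.sum_comm, Finset.sum_comm]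
    refine Finset.sum_congr rfl fun b _ => ?_
    rw [h1 a b, Finset.sum_mul, Finset.mul_sum]
    refine Finset.sum_congr rfl fun c _ => ?_
    rw [Finset.sum_mul, Finset.mul_sum]
    refine Finset.sum_congr rfl fun c' _ => ?_
    ring
  rw [h3, Complex.re_sum]
  refine Finset.sum_nonneg fun c _ => ?_
  rw [Complex.re_sum]
  refine Finset.sum_nonneg fun c' _ => ?_
  rw [Complex.ofReal_re]
  exact mul_nonneg (mul_nonneg (hWK.hk c).le (hWK.hk c').le) (sq_nonneg _)

/-- the Schur test for a symmetric kernel -/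
theorem schur_test (R : Finset X) (A : X → X → ℝ) (hA : ∀ a b, 0 ≤ A a b)
    (hs : ∀ a b, A a b = A b a) (g : X → ℝ) (hg : ∀ a ∈ R, 0 < g a) (c : ℝ)
    (h : ∀ a ∈ R, ∑ b ∈ R, A a b * g b ≤ c * g a) (u : X → ℂ) :
    ∑ a ∈ R, ∑ b ∈ R, A a b * ((starRingEnd ℂ) (u a) * u b).re ≤ c * ∑ a ∈ R, ‖u a‖ ^ 2 := by
  have h1 : ∀ a ∈ R, ∀ b ∈ R, A a b * ((starRingEnd ℂ) (u a) * u b).re ≤
      (1 / 2) * (A a b * g b * (‖u a‖ ^ 2 / g a)) + (1 / 2) * (A b a * g a * (‖u b‖ ^ 2 / g b)) := by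
    intro a ha b hb
    have h2 : ((starRingEnd ℂ) (u a) * u b).re ≤ ‖u a‖ * ‖u b‖ := by
      refine (Complex.re_le_norm _).trans ?_
      rw [norm_mul, Complex.norm_conj]
    have hga := hg a ha
    have hgb := hg b hb
    have h3 : ‖u a‖ * ‖u b‖ ≤ (1 / 2) * (g b * (‖u a‖ ^ 2 / g a)) +
        (1 / 2) * (g a * (‖u b‖ ^ 2 / g b)) := by
      rw [show (1 / 2 : ℝ) * (g b * (‖u a‖ ^ 2 / g a)) + (1 / 2) * (g a * (‖u b‖ ^ 2 / g b)) =
        ((g b * ‖u a‖) ^ 2 + (g a * ‖u b‖) ^ 2) / (2 * (g a * g b)) by field_simp,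
        le_div_iff₀ (by positivity)]
      nlinarith [sq_nonneg (g b * ‖u a‖ - g a * ‖u b‖)]
    have h4 := mul_le_mul_of_nonneg_left (h2.trans h3) (hA a b)
    rw [hs b a]
    linarith
  refine (Finset.sum_le_sum fun a ha => Finset.sum_le_sum fun b hb => h1 a ha b hb).trans ?_
  have h5 : ∀ a ∈ R, ∑ b ∈ R, A a b * g b * (‖u a‖ ^ 2 / g a) ≤ c * ‖u a‖ ^ 2 := by
    intro a ha
    rw [← Finset.sum_mul]
    have hga := hg a ha
    refine (mul_le_mul_of_nonneg_right (h a ha) (by positivity)).trans ?_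
    rw [mul_assoc, mul_div_cancel₀ _ hga.ne']
  rw [Finset.sum_congr rfl fun a _ => Finset.sum_add_distrib, Finset.sum_add_distrib]
  have h6 : ∑ a ∈ R, ∑ b ∈ R, (1 / 2) * (A b a * g a * (‖u b‖ ^ 2 / g b)) =
      ∑ a ∈ R, ∑ b ∈ R, (1 / 2) * (A a b * g b * (‖u a‖ ^ 2 / g a)) := Finset.sum_comm
  rw [h6, ← two_mul]
  have h7 : ∑ a ∈ R, ∑ b ∈ R, (1 / 2) * (A a b * g b * (‖u a‖ ^ 2 / g a)) ≤
      ∑ a ∈ R, (1 / 2) * (c * ‖u a‖ ^ 2) := by
    refine Finset.sum_le_sum fun a ha => ?_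
    rw [← Finset.mul_sum]
    exact mul_le_mul_of_nonneg_left (h5 a ha) (by norm_num)
  rw [← Finset.mul_sum, ← Finset.mul_sum] at h7
  linarith

/-- THE FORM BOUND -/
theorem formY {G : Matrix X X ℂ} {k g : X → ℝ} {R : Finset X} {s th : ℝ} (hWK : WK G k)
    (hs : 0 < s) (hg : ∀ a ∈ R, 0 < g a)
    (hY : ABY.Yin G 0 (fun x => ind R x * (s * g x)) g R th) (u : X → ℂ) :
    (∑ a ∈ R, (starRingEnd ℂ) (u a) * ∑ b ∈ R, s * G a b ^ 2 * u b).re ≤
      (1 + th) / 2 * ∑ a ∈ R, ‖u a‖ ^ 2 := by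
  have hv := ABY.H69.vth X G _ g R th hY
  have h1 : ∀ a ∈ R, ∑ b ∈ R, s * (G a b).re ^ 2 * g b ≤ (1 + th) / 2 * g a := by
    intro a ha
    refine le_trans (le_of_eq ?_) (hv a ha)
    rw [← Finset.sum_filter_add_sum_filter_not Finset.univ (fun b => b ∈ R)]
    have h2 : ∑ b ∈ Finset.univ.filter (fun b => b ∉ R), ind R b * (s * g b) * (G a b).re ^ 2 =
        0 := by
      refine Finset.sum_eq_zero fun b hb => ?_
      rw [ind, if_neg (Finset.mem_filter.1 hb).2]
      ring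
    rw [h2, add_zero, Finset.filter_mem_eq_inter, Finset.univ_inter]
    refine Finset.sum_congr rfl fun b hb => ?_
    rw [ind, if_pos hb]
    ring
  have h2 := schur_test R (fun a b => s * (G a b).re ^ 2) (fun a b => by positivity)
    (fun a b => by rw [hWK.hs a b]) g hg ((1 + th) / 2) h1 u
  -- the imaginary part
  obtain ⟨v, hv⟩ : ∃ v : X → ℂ, v = fun a => if a ∈ R then u a else 0 := ⟨_, rfl⟩
  have h3 := im_form hWK v
  have h4 : (∑ a, (starRingEnd ℂ) (v a) * ∑ b, (((G a b).im ^ 2 : ℝ) : ℂ) * v b).re =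
      ∑ a ∈ R, ∑ b ∈ R, (G a b).im ^ 2 * ((starRingEnd ℂ) (u a) * u b).re := by
    have h5 : ∀ a, ∑ b, (((G a b).im ^ 2 : ℝ) : ℂ) * v b =
        ∑ b ∈ R, (((G a b).im ^ 2 : ℝ) : ℂ) * u b := by
      intro a
      rw [← Finset.sum_subset (Finset.subset_univ R)]
      · refine Finset.sum_congr rfl fun b hb => ?_
        rw [hv]
        show _ * (if b ∈ R then u b else 0) = _
        rw [if_pos hb]
      · intro b _ hb
        rw [hv]
        show _ * (if b ∈ R then u b else 0) = _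
        rw [if_neg hb, mul_zero]
    rw [Finset.sum_congr rfl fun a _ => by rw [h5 a],
      ← Finset.sum_subset (Finset.subset_univ R)]
    · rw [Complex.re_sum]
      refine Finset.sum_congr rfl fun a ha => ?_
      rw [Finset.mul_sum, Complex.re_sum]
      refine Finset.sum_congr rfl fun b _ => ?_
      have h6 : v a = u a := by
        rw [hv]
        exact if_pos ha
      rw [h6, mul_left_comm, Complex.re_ofReal_mul]
    · intro a _ ha
      have h6 : v a = 0 := by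
        rw [hv]
        exact if_neg ha
      rw [h6, map_zero, zero_mul]
  rw [h4] at h3
  -- the decomposition
  have h7 : (∑ a ∈ R, (starRingEnd ℂ) (u a) * ∑ b ∈ R, s * G a b ^ 2 * u b).re =
      ∑ a ∈ R, ∑ b ∈ R, s * (G a b).re ^ 2 * ((starRingEnd ℂ) (u a) * u b).re -
        s * ∑ a ∈ R, ∑ b ∈ R, (G a b).im ^ 2 * ((starRingEnd ℂ) (u a) * u b).re := by
    have h8 : ∀ a b, ((starRingEnd ℂ) (u a) * (s * G a b ^ 2 * u b)).re =
        s * (G a b).re ^ 2 * ((starRingEnd ℂ) (u a) * u b).re -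
          s * ((G a b).im ^ 2 * ((starRingEnd ℂ) (u a) * u b).re) -
          2 * s * ((G a b).re * (G a b).im) * ((starRingEnd ℂ) (u a) * u b).im := by
      intro a b
      have e : (starRingEnd ℂ) (u a) * (s * G a b ^ 2 * u b) =
          ((s : ℝ) : ℂ) * (G a b ^ 2 * ((starRingEnd ℂ) (u a) * u b)) := by ring
      rw [e, Complex.re_ofReal_mul, Complex.mul_re, pow_two, Complex.mul_re, Complex.mul_im]
      ring
    have h9 : ∑ a ∈ R, ∑ b ∈ R, 2 * s * ((G a b).re * (G a b).im) *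
        ((starRingEnd ℂ) (u a) * u b).im = 0 := by
      have h10 : ∑ a ∈ R, ∑ b ∈ R, 2 * s * ((G a b).re * (G a b).im) *
          ((starRingEnd ℂ) (u a) * u b).im = -∑ a ∈ R, ∑ b ∈ R,
            2 * s * ((G a b).re * (G a b).im) * ((starRingEnd ℂ) (u a) * u b).im := by
        conv_rhs => rw [Finset.sum_comm]
        rw [← Finset.sum_neg_distrib]
        refine Finset.sum_congr rfl fun a _ => ?_
        rw [← Finset.sum_neg_distrib]
        refine Finset.sum_congr rfl fun b _ => ?_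
        have e1 : ((starRingEnd ℂ) (u b) * u a).im = -((starRingEnd ℂ) (u a) * u b).im := by
          rw [Complex.mul_im, Complex.mul_im, Complex.conj_re, Complex.conj_im, Complex.conj_re,
            Complex.conj_im]
          ring
        rw [e1, hWK.hs b a]
        ring
      linarith
    rw [Complex.re_sum, Finset.mul_sum]
    have h11 : ∀ a ∈ R, ((starRingEnd ℂ) (u a) * ∑ b ∈ R, s * G a b ^ 2 * u b).re =
        ∑ b ∈ R, s * (G a b).re ^ 2 * ((starRingEnd ℂ) (u a) * u b).re -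
          s * ∑ b ∈ R, (G a b).im ^ 2 * ((starRingEnd ℂ) (u a) * u b).re -
          ∑ b ∈ R, 2 * s * ((G a b).re * (G a b).im) * ((starRingEnd ℂ) (u a) * u b).im := by
      intro a _
      rw [Finset.mul_sum, Complex.re_sum, Finset.sum_congr rfl fun b _ => h8 a b,
        Finset.sum_sub_distrib, Finset.sum_sub_distrib, Finset.mul_sum]
    rw [Finset.sum_congr rfl h11, Finset.sum_sub_distrib, Finset.sum_sub_distrib, h9, sub_zero]
  rw [h7]
  have h12 := mul_nonneg hs.le h3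
  have h13 : ∑ a ∈ R, ∑ b ∈ R, s * (G a b).re ^ 2 * ((starRingEnd ℂ) (u a) * u b).re ≤
      (1 + th) / 2 * ∑ a ∈ R, ‖u a‖ ^ 2 := h2
  linarith

end Pool.Agent.AGU.H49
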