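import Pool.Agent.AGU.Stmts

set_option autoImplicit false

open scoped BigOperators

noncomputable section

namespace Pool.Agent.AGU.H49

theorem ward {X : Type} [Fintype X] {G : Matrix X X ℂ} {k : X → ℝ} (h : WK G k) (a : X) :
    ∑ b, k b * ‖G a b‖ ^ 2 = (G a a).im := by
  have h1 := h.hw a a
  have h2 : ∀ c, (k c : ℂ) * (starRingEnd ℂ) (G a c) * G c a = ((k c * ‖G a c‖ ^ 2 : ℝ) : ℂ) := by
    intro c
    rw [h.hs c a, mul_assoc, Complex.conj_mul']
    push_cast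
    ring
  rw [Finset.sum_congr rfl fun c _ => h2 c, ← Complex.ofReal_sum] at h1
  exact Complex.ofReal_injective h1

theorem aux1 {x g d : ℝ} (hd : 0 ≤ d) (hg : 0 ≤ g) (h : x ^ 2 ≤ g * (2 * d ^ 2 * g)) :
    x ≤ 3 / 2 * d * g := by
  refine (le_abs_self x).trans (abs_le_of_sq_le_sq ?_ (by positivity))
  have h1 : 0 ≤ d ^ 2 * g ^ 2 := by positivity
  have h2 : (3 / 2 * d * g) ^ 2 = 9 / 4 * (d ^ 2 * g ^ 2) := by ring
  have h3 : g * (2 * d ^ 2 * g) = 2 * (d ^ 2 * g ^ 2) := by ring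
  rw [h2]
  rw [h3] at h
  linarith

theorem aux2 {x y g d : ℝ} (hd : 0 ≤ d) (hd4 : d ≤ 1 / 4) (hg : 0 ≤ g)
    (hx : x ≤ 3 / 2 * d * g) (hy : y ≤ 2 * d ^ 2 * g) : 2 * x + y ≤ 4 * d * g := by
  have h1 : 0 ≤ d * g := mul_nonneg hd hg
  have h2 : 2 * d ^ 2 * g ≤ 1 / 2 * (d * g) := by nlinarith
  linarith

theorem gfi (gnw : GnwStmt) (gpb : GpbStmt) : GfiStmt := by
  intro c c₀ C₀ hc hc₀ hC₀
  obtain ⟨C, hC1, hC⟩ := gnw c c₀ C₀ hc hc₀ hC₀
  obtain ⟨C', hC'⟩ : ∃ C' : ℝ, C' = 6 * (C₀ + 1) / c₀ + 1 := ⟨_, rfl⟩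
  have hq : 0 ≤ 6 * (C₀ + 1) / c₀ := by positivity
  have hC'1 : 1 ≤ C' := by rw [hC']; linarith
  have hC'2 : 2 * (C₀ + 1) / c₀ ^ 2 + 1 ≤ C' ^ 2 := by
    have e1 : (6 * (C₀ + 1) / c₀) ^ 2 = 36 * (C₀ + 1) ^ 2 / c₀ ^ 2 := by ring
    have e2 : 2 * (C₀ + 1) / c₀ ^ 2 ≤ 36 * (C₀ + 1) ^ 2 / c₀ ^ 2 := by
      refine div_le_div_of_nonneg_right ?_ (by positivity)
      nlinarith
    rw [hC']
    nlinarith
  refine ⟨C' * C, by nlinarith, ?_⟩
  intro X _ _ G k R m s ε e B N hrun hN he1 he2 he3 hB1 hB2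
  obtain ⟨δ, hδ0, hδ1, hδ2⟩ := hC X G k R m s ε e B N hrun hN he1 he2 he3 hB1 hB2
  have hlog : 0 ≤ Real.log N := Real.log_nonneg hN
  obtain ⟨L₁, hL₁⟩ : ∃ L₁ : ℝ, L₁ = C * (1 + Real.log N) := ⟨_, rfl⟩
  have hL₁1 : 1 ≤ L₁ := by rw [hL₁]; nlinarith
  have hL : C' * C * (1 + Real.log N) = C' * L₁ := by rw [hL₁]; ring
  rw [hL]
  rw [← hL₁] at hδ1 hδ2
  obtain ⟨L, hLd⟩ : ∃ L : ℝ, L = C' * L₁ := ⟨_, rfl⟩
  rw [← hLd]
  have hLL : L₁ ≤ L := by rw [hLd]; nlinarith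
  have hε0 := hrun.hε.1
  have hk0 : ∀ a, 0 < k a := hrun.hw.hk
  -- `s ≤ k / c₀` on `R`
  have hsk : ∀ a ∈ R, s ≤ k a / c₀ := by
    intro a ha
    rw [le_div_iff₀ hc₀]
    calc s * c₀ ≤ s * (m a).im := by
          exact mul_le_mul_of_nonneg_left (hrun.hm a ha).1 hrun.hs.le
      _ ≤ k a := hrun.hk a ha
  have hz1 : ∀ a, ‖(s : ℂ) * δ a‖ ≤ L₁ * ε / c₀ * k a := by
    intro a
    by_cases ha : a ∈ R
    · rw [norm_mul, Complex.norm_real, Real.norm_of_nonneg hrun.hs.le]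
      calc s * ‖δ a‖ ≤ (k a / c₀) * (L₁ * ε) := by
            refine mul_le_mul (hsk a ha) (hδ1 a) (norm_nonneg _) ?_
            exact div_nonneg (hk0 a).le hc₀.le
        _ = L₁ * ε / c₀ * k a := by ring
    · rw [hδ0 a ha, mul_zero, norm_zero]
      have := (hk0 a).le
      positivity
  refine ⟨δ, hδ0, fun a => (hδ1 a).trans (mul_le_mul_of_nonneg_right hLL hε0), fun a => ?_, ?_⟩
  · refine (hz1 a).trans ?_
    have := (hk0 a).le
    refine mul_le_mul_of_nonneg_right ?_ this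
    exact div_le_div_of_nonneg_right (mul_le_mul_of_nonneg_right hLL hε0) hc₀.le
  intro G' k' hch
  obtain ⟨d, hd⟩ : ∃ d : ℝ, d = L₁ * ε / c₀ := ⟨_, rfl⟩
  have hd0 : 0 ≤ d := by rw [hd]; positivity
  have hdd : d ≤ L * ε / c₀ := by
    rw [hd]
    exact div_le_div_of_nonneg_right (mul_le_mul_of_nonneg_right hLL hε0) hc₀.le
  have hd4 : d ≤ 1 / 4 := hdd.trans hch.hd.2
  have hch' : Chg G G' k k' (fun a => (s : ℂ) * δ a) d :=
    ⟨hch.h0, hch.h1, ⟨hd0, hd4⟩, fun a => by rw [hd]; exact hz1 a, hch.hk, hch.hr⟩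
  obtain ⟨p1, -, p3, p4, -, -⟩ := gpb X G G' k k' _ d hch'
  have hεle : ε ≤ 1 / 4 := by
    have := hrun.hε.2
    have := hrun.hc.2.2.2.1
    linarith
  have hg : ∀ a ∈ R, (G a a).im ≤ C₀ + 1 := by
    intro a ha
    have h1 := Complex.abs_im_le_norm (G a a - m a)
    rw [Complex.sub_im] at h1
    have h2 := (abs_le.1 (h1.trans (hrun.hμ a ha))).2
    have h3 := (hrun.hm a ha).2
    linarith
  have hgp : ∀ a, 0 ≤ (G a a).im := by
    intro a
    rw [← ward hch.h0 a]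
    exact Finset.sum_nonneg fun b _ => mul_nonneg (hk0 b).le (by positivity)
  refine ⟨fun a ha => ?_, fun a ha => ?_⟩
  · -- the new mismatch
    have hs1 : ∑ c, G a c ^ 2 * ((s : ℂ) * δ c) = ∑ b ∈ R, s * G a b ^ 2 * δ b := by
      rw [← Finset.sum_subset (Finset.subset_univ R)]
      · exact Finset.sum_congr rfl fun b _ => by ring
      · intro b _ hb
        rw [hδ0 b hb, mul_zero, mul_zero]
    have h1 := p4 a
    rw [hs1] at h1
    have h2 := hδ2 a ha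
    have h3 : G' a a - (m a + δ a) = (G' a a - G a a - ∑ b ∈ R, s * G a b ^ 2 * δ b) -
        (δ a - (G a a - m a) - ∑ b ∈ R, s * G a b ^ 2 * δ b) := by ring
    rw [h3]
    refine (norm_sub_le _ _).trans ((add_le_add h1 h2).trans ?_)
    have h4 : 2 * d ^ 2 * (G a a).im ≤ 2 * (C₀ + 1) / c₀ ^ 2 * (L₁ ^ 2 * ε ^ 2) := by
      calc 2 * d ^ 2 * (G a a).im ≤ 2 * d ^ 2 * (C₀ + 1) :=
            mul_le_mul_of_nonneg_left (hg a ha) (by positivity)
        _ = 2 * (C₀ + 1) / c₀ ^ 2 * (L₁ ^ 2 * ε ^ 2) := by rw [hd]; ring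
    have h5 : L₁ * ε ^ 2 ≤ 1 * (L₁ ^ 2 * ε ^ 2) := by
      rw [one_mul]
      refine mul_le_mul_of_nonneg_right ?_ (by positivity)
      nlinarith
    have h6 : L ^ 2 * ε ^ 2 = C' ^ 2 * (L₁ ^ 2 * ε ^ 2) := by rw [hLd]; ring
    rw [h6]
    have h7 : 0 ≤ L₁ ^ 2 * ε ^ 2 := by positivity
    nlinarith
  · -- the last
    have hkk : ∀ b, k b ≤ 4 / 3 * k' b := by
      intro b
      have h1 := hch'.hk b
      have h2 := hch'.hz b
      have h3 := (Complex.abs_im_le_norm ((s : ℂ) * δ b)).trans h2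
      have h4 := (abs_le.1 h3).1
      have h5 := hk0 b
      nlinarith
    have hA : ∑ b ∈ R, s * (G' a b).re ^ 2 * (δ b).im ≤ 2 * (C₀ + 1) / c₀ * (L₁ * ε) := by
      have t1 : ∀ b ∈ R, s * (G' a b).re ^ 2 * (δ b).im ≤
          (4 / 3 * (k' b * ‖G' a b‖ ^ 2)) * (L₁ * ε / c₀) := by
        intro b hb
        have u1 : (G' a b).re ^ 2 ≤ ‖G' a b‖ ^ 2 := by
          rw [← sq_abs (G' a b).re]
          exact pow_le_pow_left₀ (abs_nonneg _) (Complex.abs_re_le_norm _) 2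
        have u2 : (δ b).im ≤ L₁ * ε :=
          (le_abs_self _).trans ((Complex.abs_im_le_norm _).trans (hδ1 b))
        have u3 : s ≤ (4 / 3 * k' b) / c₀ :=
          (hsk b hb).trans (div_le_div_of_nonneg_right (hkk b) hc₀.le)
        have u4 : 0 ≤ L₁ * ε := by positivity
        calc s * (G' a b).re ^ 2 * (δ b).im ≤ s * (G' a b).re ^ 2 * (L₁ * ε) := by
              refine mul_le_mul_of_nonneg_left u2 ?_
              have := hrun.hs.le
              positivity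
          _ ≤ s * ‖G' a b‖ ^ 2 * (L₁ * ε) := by
              refine mul_le_mul_of_nonneg_right (mul_le_mul_of_nonneg_left u1 hrun.hs.le) u4
          _ ≤ ((4 / 3 * k' b) / c₀) * ‖G' a b‖ ^ 2 * (L₁ * ε) := by
              refine mul_le_mul_of_nonneg_right (mul_le_mul_of_nonneg_right u3 ?_) u4
              positivity
          _ = _ := by ring
      have t2 : ∑ b ∈ R, (4 / 3 * (k' b * ‖G' a b‖ ^ 2)) * (L₁ * ε / c₀) ≤
          ∑ b, (4 / 3 * (k' b * ‖G' a b‖ ^ 2)) * (L₁ * ε / c₀) := by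
        refine Finset.sum_le_univ_sum_of_nonneg fun b => ?_
        have := (hch.h1.hk b).le
        positivity
      have t3 : ∑ b, (4 / 3 * (k' b * ‖G' a b‖ ^ 2)) * (L₁ * ε / c₀) =
          4 / 3 * (G' a a).im * (L₁ * ε / c₀) := by
        rw [← Finset.sum_mul, ← Finset.mul_sum, ward hch.h1 a]
      have t4 : 4 / 3 * (G' a a).im ≤ 2 * (C₀ + 1) := by
        have := (p1 a).1
        have := hg a ha
        linarith
      calc ∑ b ∈ R, s * (G' a b).re ^ 2 * (δ b).im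
          ≤ 4 / 3 * (G' a a).im * (L₁ * ε / c₀) :=
            (Finset.sum_le_sum t1).trans (t2.trans t3.le)
        _ ≤ 2 * (C₀ + 1) * (L₁ * ε / c₀) :=
            mul_le_mul_of_nonneg_right t4 (by positivity)
        _ = _ := by ring
    have hB : ∑ b ∈ R, s * (G' a b).re ^ 2 * (m b).im ≤
        ∑ b ∈ R, s * (G a b).re ^ 2 * (m b).im + 4 * (C₀ + 1) / c₀ * (L₁ * ε) := by
      have t1 : ∀ b ∈ R, s * (G' a b).re ^ 2 * (m b).im ≤ s * (G a b).re ^ 2 * (m b).im +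
          (2 * (k b * (‖G a b‖ * ‖G' a b - G a b‖)) + k b * ‖G' a b - G a b‖ ^ 2) := by
        intro b hb
        have u0 : (G' a b).re = (G a b).re + (G' a b - G a b).re := by
          rw [Complex.sub_re]; ring
        have v1 := Complex.abs_re_le_norm (G a b)
        have v2 := Complex.abs_re_le_norm (G' a b - G a b)
        have u1 : (G' a b).re ^ 2 - (G a b).re ^ 2 ≤
            2 * (‖G a b‖ * ‖G' a b - G a b‖) + ‖G' a b - G a b‖ ^ 2 := by
          have w1 : (G a b).re * (G' a b - G a b).re ≤ ‖G a b‖ * ‖G' a b - G a b‖ := by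
            calc (G a b).re * (G' a b - G a b).re ≤ |(G a b).re * (G' a b - G a b).re| :=
                  le_abs_self _
              _ = |(G a b).re| * |(G' a b - G a b).re| := abs_mul _ _
              _ ≤ _ := mul_le_mul v1 v2 (abs_nonneg _) (norm_nonneg _)
          have w2 : (G' a b - G a b).re ^ 2 ≤ ‖G' a b - G a b‖ ^ 2 := by
            rw [← sq_abs (G' a b - G a b).re]
            exact pow_le_pow_left₀ (abs_nonneg _) v2 2
          rw [u0]
          nlinarith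
        have u2 : 0 ≤ 2 * (‖G a b‖ * ‖G' a b - G a b‖) + ‖G' a b - G a b‖ ^ 2 := by positivity
        have u3 := hrun.hk b hb
        have u4 : 0 ≤ s * (m b).im := mul_nonneg hrun.hs.le (hc₀.le.trans (hrun.hm b hb).1)
        have u5 : s * (m b).im * ((G' a b).re ^ 2 - (G a b).re ^ 2) ≤
            k b * (2 * (‖G a b‖ * ‖G' a b - G a b‖) + ‖G' a b - G a b‖ ^ 2) :=
          (mul_le_mul_of_nonneg_left u1 u4).trans (mul_le_mul_of_nonneg_right u3 u2)
        nlinarith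
      have t2 : ∑ b ∈ R, (2 * (k b * (‖G a b‖ * ‖G' a b - G a b‖)) +
          k b * ‖G' a b - G a b‖ ^ 2) ≤
          ∑ b, (2 * (k b * (‖G a b‖ * ‖G' a b - G a b‖)) + k b * ‖G' a b - G a b‖ ^ 2) := by
        refine Finset.sum_le_univ_sum_of_nonneg fun b => ?_
        have := (hk0 b).le
        positivity
      have t3 : ∑ b, k b * ‖G' a b - G a b‖ ^ 2 ≤ 2 * d ^ 2 * (G a a).im := by
        have := p3 a
        refine le_trans (le_of_eq (Finset.sum_congr rfl fun b _ => ?_)) this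
        rw [hch.h1.hs a b, hch.h0.hs a b]
      have t4 : (∑ b, k b * (‖G a b‖ * ‖G' a b - G a b‖)) ^ 2 ≤
          (∑ b, k b * ‖G a b‖ ^ 2) * ∑ b, k b * ‖G' a b - G a b‖ ^ 2 := by
        refine Finset.sum_sq_le_sum_mul_sum_of_sq_le_mul _ ?_ ?_ ?_
        · intro b _
          exact mul_nonneg (hk0 b).le (by positivity)
        · intro b _
          exact mul_nonneg (hk0 b).le (by positivity)
        · intro b _
          exact le_of_eq (by ring)
      rw [ward hch.h0 a] at t4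
      have t5 : ∑ b, k b * (‖G a b‖ * ‖G' a b - G a b‖) ≤ 3 / 2 * d * (G a a).im :=
        aux1 hd0 (hgp a) (t4.trans (mul_le_mul_of_nonneg_left t3 (hgp a)))
      have t6 : ∑ b, (2 * (k b * (‖G a b‖ * ‖G' a b - G a b‖)) + k b * ‖G' a b - G a b‖ ^ 2) ≤
          4 * d * (G a a).im := by
        rw [Finset.sum_add_distrib, ← Finset.mul_sum]
        exact aux2 hd0 hd4 (hgp a) t5 t3
      have t7 : 4 * d * (G a a).im ≤ 4 * (C₀ + 1) / c₀ * (L₁ * ε) := by
        calc 4 * d * (G a a).im ≤ 4 * d * (C₀ + 1) :=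
              mul_le_mul_of_nonneg_left (hg a ha) (by positivity)
          _ = _ := by rw [hd]; ring
      have t8 := Finset.sum_le_sum t1
      rw [Finset.sum_add_distrib] at t8
      linarith
    have hsum : ∑ b ∈ R, s * (G' a b).re ^ 2 * (m b + δ b).im =
        ∑ b ∈ R, s * (G' a b).re ^ 2 * (m b).im + ∑ b ∈ R, s * (G' a b).re ^ 2 * (δ b).im := by
      rw [← Finset.sum_add_distrib]
      refine Finset.sum_congr rfl fun b _ => ?_
      rw [Complex.add_im]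
      ring
    rw [hsum]
    have hfin : 4 * (C₀ + 1) / c₀ * (L₁ * ε) + 2 * (C₀ + 1) / c₀ * (L₁ * ε) ≤ L * ε := by
      have : 4 * (C₀ + 1) / c₀ * (L₁ * ε) + 2 * (C₀ + 1) / c₀ * (L₁ * ε) =
          (6 * (C₀ + 1) / c₀) * (L₁ * ε) := by ring
      rw [this, hLd, mul_assoc]
      refine mul_le_mul_of_nonneg_right ?_ (by positivity)
      rw [hC']
      linarith
    linarith

end Pool.Agent.AGU.H49
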