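import Pool.Agent.AGU.Stmts

set_option autoImplicit false

open scoped BigOperators

noncomputable section

namespace Pool.Agent.AGU.H49

theorem gho : GhoStmt := by
  intro X S g h L Q hL hQ h1 h2
  have h4 : ((4 : ℕ) : ℝ) = 4 := by norm_num
  have key := Real.Lp_add_le S (fun b => ‖g b‖) (fun b => ‖h b - g b‖) (p := 4) (by norm_num)
  have e1 : ∀ f : X → ℝ, (∀ b, 0 ≤ f b) → ∑ b ∈ S, |f b| ^ (4 : ℝ) = ∑ b ∈ S, f b ^ 4 := by
    intro f hf
    refine Finset.sum_congr rfl fun b _ => ?_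
    rw [abs_of_nonneg (hf b), ← h4, Real.rpow_natCast]
  rw [e1 _ (fun b => add_nonneg (norm_nonneg _) (norm_nonneg _)), e1 _ (fun b => norm_nonneg _),
    e1 _ (fun b => norm_nonneg _)] at key
  have r1 : ∀ (x T : ℝ), 0 ≤ x → 0 ≤ T → x ≤ T ^ 4 → x ^ (1 / (4 : ℝ)) ≤ T := by
    intro x T hx hT hxT
    calc x ^ (1 / (4 : ℝ)) ≤ (T ^ 4) ^ (1 / (4 : ℝ)) := Real.rpow_le_rpow hx hxT (by norm_num)
      _ = T := by
        rw [← Real.rpow_natCast, ← Real.rpow_mul hT]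
        norm_num
  have hA : 0 ≤ ∑ b ∈ S, ‖g b‖ ^ 4 := Finset.sum_nonneg fun b _ => by positivity
  have hB : 0 ≤ ∑ b ∈ S, ‖h b - g b‖ ^ 4 := Finset.sum_nonneg fun b _ => by positivity
  have hC : 0 ≤ ∑ b ∈ S, (‖g b‖ + ‖h b - g b‖) ^ 4 := Finset.sum_nonneg fun b _ => by positivity
  have k1 := key.trans (add_le_add (r1 _ L hA hL h1) (r1 _ Q hB hQ h2))
  have k2 : ∑ b ∈ S, (‖g b‖ + ‖h b - g b‖) ^ 4 ≤ (L + Q) ^ 4 := by
    have h5 := pow_le_pow_left₀ (Real.rpow_nonneg hC _) k1 4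
    rw [← Real.rpow_natCast, ← Real.rpow_mul hC] at h5
    norm_num at h5
    exact h5
  refine le_trans (Finset.sum_le_sum fun b _ => ?_) k2
  refine pow_le_pow_left₀ (norm_nonneg _) ?_ 4
  calc ‖h b‖ = ‖g b + (h b - g b)‖ := by rw [add_sub_cancel]
    _ ≤ _ := norm_add_le _ _

end Pool.Agent.AGU.H49
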